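import Pool.Agent.V11250.LR.Defs

/-!
# Elementary facts on the distance to the nearest integer
-/

set_option autoImplicit false

namespace Pool.Agent.V11250.LR

theorem le_nint {d x : ℝ} (N : ℤ) (h1 : N + d ≤ x) (h2 : x ≤ N + 1 - d) : d ≤ nint x := by
  unfold nint
  rcases le_or_gt (round x) N with h | h
  · have : ((round x : ℤ) : ℝ) ≤ N := by exact_mod_cast h
    have := le_abs_self (x - round x)
    linarith
  · have : ((N + 1 : ℤ) : ℝ) ≤ (round x : ℤ) := by exact_mod_cast h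
    push_cast at this
    have := neg_le_abs (x - round x)
    linarith

theorem exists_of_le_nint {d x : ℝ} (h : d ≤ nint x) :
    ∃ N : ℤ, N + d ≤ x ∧ x ≤ N + 1 - d := by
  refine ⟨⌊x⌋, ?_, ?_⟩
  · have h1 := h.trans (round_le x ⌊x⌋)
    rw [abs_of_nonneg (sub_nonneg.2 (Int.floor_le x))] at h1
    linarith
  · have h1 := h.trans (round_le x (⌊x⌋ + 1))
    have h2 := Int.lt_floor_add_one x
    push_cast at h1
    rw [abs_of_nonpos (by linarith)] at h1
    linarith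

theorem nint_le {x c : ℝ} (N : ℤ) (h : |x - N| ≤ c) : nint x ≤ c := (round_le x N).trans h

theorem le_nint_of_near {d x y : ℝ} (h : d ≤ nint x) (N : ℤ) (hy : y = x + N) : d ≤ nint y := by
  obtain ⟨M, h1, h2⟩ := exists_of_le_nint h
  refine le_nint (M + N) ?_ ?_
  · push_cast; linarith
  · push_cast; linarith

theorem le_nint_neg {d x : ℝ} (h : d ≤ nint x) : d ≤ nint (-x) := by
  obtain ⟨M, h1, h2⟩ := exists_of_le_nint h
  refine le_nint (-M - 1) ?_ ?_
  · push_cast; linarith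
  · push_cast; linarith

/-- Multiples of a non-integer reach distance at least `1/4`. -/
theorem exists_mul_ge {x : ℝ} (hx : ∀ n : ℤ, x ≠ n) : ∃ j : ℕ, 1 / 4 ≤ nint (j * x) := by
  have key : ∀ y : ℝ, 0 < y → y ≤ 1 / 2 → ∃ j : ℕ, 1 / 4 ≤ (j : ℝ) * y ∧ (j : ℝ) * y ≤ 3 / 4 := by
    intro y h0 h1
    rcases le_or_gt (1 / 4) y with h | h
    · exact ⟨1, by simpa using h, by push_cast; linarith⟩
    · have hpos : 0 < 1 / (4 * y) := by positivity
      have hmul : 1 / (4 * y) * y = 1 / 4 := by field_simp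
      refine ⟨⌈1 / (4 * y)⌉₊, ?_, ?_⟩
      · have := mul_le_mul_of_nonneg_right (Nat.le_ceil (1 / (4 * y))) h0.le
        linarith
      · have := mul_le_mul_of_nonneg_right (Nat.ceil_lt_add_one hpos.le).le h0.le
        nlinarith
  set n : ℤ := round x with hn
  have habs : |x - n| ≤ 1 / 2 := abs_sub_round x
  have hne : x - n ≠ 0 := sub_ne_zero.2 (hx n)
  obtain ⟨j, h1, h2⟩ := key |x - n| (abs_pos.2 hne) habs
  refine ⟨j, ?_⟩
  rcases le_or_gt 0 (x - n) with h | h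
  · rw [abs_of_nonneg h] at h1 h2
    refine le_nint (j * n) ?_ ?_
    · push_cast; linarith
    · push_cast; linarith
  · rw [abs_of_neg h] at h1 h2
    refine le_nint (j * n - 1) ?_ ?_
    · push_cast; linarith
    · push_cast; linarith

/-- If `b` does not divide `c` then there is `T` with `b * T` an integer and `c * T` at distance at least
`1/4` from the integers. -/
theorem exists_of_not_dvd {b c : ℤ} (h : ¬ b ∣ c) (hb : b ≠ 0) :
    ∃ (T : ℝ) (j : ℤ), (b : ℝ) * T = j ∧ 1 / 4 ≤ nint (c * T) := by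
  have hb' : (b : ℝ) ≠ 0 := by exact_mod_cast hb
  obtain ⟨j, hj⟩ := exists_mul_ge (x := (c : ℝ) / b) (by
    intro n hn
    apply h
    refine ⟨n, ?_⟩
    have : (c : ℝ) = b * n := by rw [← hn]; field_simp
    exact_mod_cast this)
  refine ⟨(j : ℝ) / b, j, ?_, ?_⟩
  · push_cast; field_simp
  · rw [show (c : ℝ) * ((j : ℝ) / b) = j * (c / b) by ring]
    exact hj

/-- The shift lemma modulo `5`, one speed. -/
theorem shift_one {s : ℤ} (hs : ¬ (5 : ℤ) ∣ s) (x : ℝ) :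
    ∃ (m N : ℤ), (N : ℝ) + 2 / 5 ≤ x + s * m / 5 ∧ x + s * m / 5 ≤ N + 3 / 5 := by
  set j : ℤ := ⌈5 * (2 / 5 - x)⌉ with hj
  have h1 : 5 * (2 / 5 - x) ≤ j := Int.le_ceil _
  have h2 : (j : ℝ) < 5 * (2 / 5 - x) + 1 := Int.ceil_lt_add_one _
  have hm : ∃ m q : ℤ, s * m = j + 5 * q := by
    have h5 : s % 5 = 1 ∨ s % 5 = 2 ∨ s % 5 = 3 ∨ s % 5 = 4 := by omega
    rcases h5 with h | h | h | h
    · refine ⟨j, (s / 5) * j, ?_⟩
      have : s = 5 * (s / 5) + 1 := by omega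
      linear_combination j * this
    · refine ⟨3 * j, (3 * (s / 5) + 1) * j, ?_⟩
      have : s = 5 * (s / 5) + 2 := by omega
      linear_combination (3 * j) * this
    · refine ⟨2 * j, (2 * (s / 5) + 1) * j, ?_⟩
      have : s = 5 * (s / 5) + 3 := by omega
      linear_combination (2 * j) * this
    · refine ⟨4 * j, (4 * (s / 5) + 3) * j, ?_⟩
      have : s = 5 * (s / 5) + 4 := by omega
      linear_combination (4 * j) * this
  obtain ⟨m, q, hmq⟩ := hm
  have hmq' : (s : ℝ) * m = j + 5 * q := by exact_mod_cast hmq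
  refine ⟨m, q, ?_, ?_⟩
  · rw [hmq']; linarith
  · rw [hmq']; linarith

/-- The shift lemma modulo `5`, two speeds. -/
theorem shift_two {s r : ℤ} (hs : ¬ (5 : ℤ) ∣ s) (hr : ¬ (5 : ℤ) ∣ r) (x y : ℝ) :
    ∃ m : ℤ, 1 / 5 ≤ nint (x + s * m / 5) ∧ 1 / 5 ≤ nint (y + r * m / 5) := by
  -- an inverse of `s` modulo `5`
  have hp : ∃ p q : ℤ, s * p = 1 + 5 * q := by
    have h5 : s % 5 = 1 ∨ s % 5 = 2 ∨ s % 5 = 3 ∨ s % 5 = 4 := by omega
    rcases h5 with h | h | h | h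
    · exact ⟨1, s / 5, by omega⟩
    · exact ⟨3, 3 * (s / 5) + 1, by omega⟩
    · exact ⟨2, 2 * (s / 5) + 1, by omega⟩
    · exact ⟨4, 4 * (s / 5) + 3, by omega⟩
  obtain ⟨p, q, hpq⟩ := hp
  have hpq' : (s : ℝ) * p = 1 + 5 * q := by exact_mod_cast hpq
  have h5p : ¬ (5 : ℤ) ∣ p := by
    rintro ⟨z, rfl⟩
    have : s * (5 * z) = 5 * (s * z) := by ring
    omega
  have hrp : ¬ (5 : ℤ) ∣ r * p := by
    intro h
    rcases (by norm_num : Prime (5 : ℤ)).dvd_or_dvd h with h | h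
    · exact hr h
    · exact h5p h
  set k : ℤ := ⌈5 * (1 / 5 - x)⌉ with hk
  have h1 : 5 * (1 / 5 - x) ≤ k := Int.le_ceil _
  have h2 : (k : ℝ) < 5 * (1 / 5 - x) + 1 := Int.ceil_lt_add_one _
  have hgood : ∀ i : ℤ, 0 ≤ i → i ≤ 2 → 1 / 5 ≤ nint (x + s * (p * (k + i) : ℤ) / 5) := by
    intro i hi0 hi2
    have e : x + (s : ℝ) * ((p * (k + i) : ℤ) : ℝ) / 5 = x + (k + i) / 5 + (q * (k + i) : ℤ) := by
      push_cast
      rw [show (s : ℝ) * ((p : ℝ) * (k + i)) = (s * p) * (k + i) by ring, hpq']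
      ring
    have hi0' : (0 : ℝ) ≤ i := by exact_mod_cast hi0
    have hi2' : (i : ℝ) ≤ 2 := by exact_mod_cast hi2
    rw [e]
    refine le_nint (q * (k + i)) ?_ ?_
    · linarith
    · linarith
  by_contra hcon
  push Not at hcon
  have hbad : ∀ i : ℤ, 0 ≤ i → i ≤ 2 → nint (y + r * (p * (k + i) : ℤ) / 5) < 1 / 5 :=
    fun i hi0 hi2 => hcon _ (hgood i hi0 hi2)
  have b0 := hbad 0 le_rfl (by norm_num)
  have b1 := hbad 1 (by norm_num) (by norm_num)
  have b2 := hbad 2 (by norm_num) le_rfl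
  unfold nint at b0 b1 b2
  rw [abs_lt] at b0 b1 b2
  set n0 := round (y + (r : ℝ) * ((p * (k + 0) : ℤ) : ℝ) / 5)
  set n1 := round (y + (r : ℝ) * ((p * (k + 1) : ℤ) : ℝ) / 5)
  set n2 := round (y + (r : ℝ) * ((p * (k + 2) : ℤ) : ℝ) / 5)
  push_cast at b0 b1 b2
  have c1 : |((r * p - 5 * (n1 - n0) : ℤ) : ℝ)| < 2 := by
    rw [abs_lt]; push_cast
    constructor <;> nlinarith [b0.1, b0.2, b1.1, b1.2]
  have c2 : |((2 * (r * p) - 5 * (n2 - n0) : ℤ) : ℝ)| < 2 := by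
    rw [abs_lt]; push_cast
    constructor <;> nlinarith [b0.1, b0.2, b2.1, b2.2]
  have c1' : |r * p - 5 * (n1 - n0)| < 2 := by exact_mod_cast c1
  have c2' : |2 * (r * p) - 5 * (n2 - n0)| < 2 := by exact_mod_cast c2
  rw [abs_lt] at c1' c2'
  generalize r * p = w at *
  have h3 : w - 5 * (n1 - n0) = -1 ∨ w - 5 * (n1 - n0) = 0 ∨ w - 5 * (n1 - n0) = 1 := by omega
  generalize n1 - n0 = P at *
  generalize n2 - n0 = Q at *
  rcases h3 with h3 | h3 | h3 <;> omega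

end Pool.Agent.V11250.LR
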