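import Mathlib

/-!
# The mixed lonely runner parameter space
-/

set_option autoImplicit false

namespace Pool.Agent.V11250.LR

/-- The distance of `x` to the nearest integer. -/
noncomputable def nint (x : ℝ) : ℝ := |x - round x|

/-- `MLRC d`: for all pairwise distinct positive integer speeds `s i` there is a time `t` at which the
distance of `s i * t` to the nearest integer is at least `d i`, for all `i`. -/
def MLRC {k : ℕ} (d : Fin k → ℝ) : Prop :=
  ∀ s : Fin k → ℕ, (∀ i, 0 < s i) → Function.Injective s → ∃ t : ℝ, ∀ i, d i ≤ nint (s i * t)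

/-- The mixed lonely runner parameter space: the points `d` of `(0, 1/2]^k` with `MLRC d`. -/
def MLPS (k : ℕ) : Set (Fin k → ℝ) := {d | (∀ i, 0 < d i ∧ d i ≤ 1 / 2) ∧ MLRC d}

/-- The upper boundary of `MLPS k`: the points `d` of `MLPS k` such that no other point `e` of `MLPS k`
satisfies `d i ≤ e i` for all `i`. -/
def UpperBoundary (k : ℕ) : Set (Fin k → ℝ) :=
  {d | d ∈ MLPS k ∧ ∀ e ∈ MLPS k, e ≠ d → ¬ ∀ i, d i ≤ e i}

/-- The diagonal point `(1/(k+1), ..., 1/(k+1))`. -/
noncomputable def diagPt (k : ℕ) : Fin k → ℝ := fun _ => 1 / ((k : ℝ) + 1)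

end Pool.Agent.V11250.LR
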