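import Pool.Agent.V11250.LR.Basic

/-!
# The point `(9/25, 1/5, 1/5)`
-/

set_option autoImplicit false

namespace Pool.Agent.V11250.LR

/-- Two speeds. -/
theorem two_speeds : ∀ (n a b : ℕ), a + b ≤ n → 0 < a → 0 < b →
    ∃ T : ℝ, 2 / 5 ≤ nint (((a : ℤ) : ℝ) * T) ∧ 1 / 5 ≤ nint (((b : ℤ) : ℝ) * T) := by
  intro n
  induction n with
  | zero => intro a b h ha hb; omega
  | succ n ih =>
    intro a b h ha hb
    by_cases h5a : (5 : ℤ) ∣ (a : ℤ)
    · obtain ⟨a', ha'⟩ := h5a
      by_cases h5b : (5 : ℤ) ∣ (b : ℤ)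
      · obtain ⟨b', hb'⟩ := h5b
        obtain ⟨T, h1, h2⟩ := ih a'.toNat b'.toNat (by omega) (by omega) (by omega)
        have ea : ((a'.toNat : ℤ) : ℝ) = (a' : ℝ) := by
          exact_mod_cast congrArg (Int.cast (R := ℝ)) (Int.toNat_of_nonneg (by omega : 0 ≤ a'))
        have eb : ((b'.toNat : ℤ) : ℝ) = (b' : ℝ) := by
          exact_mod_cast congrArg (Int.cast (R := ℝ)) (Int.toNat_of_nonneg (by omega : 0 ≤ b'))
        rw [ea] at h1
        rw [eb] at h2
        refine ⟨T / 5, ?_, ?_⟩
        · rw [ha']; push_cast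
          rwa [show (5 : ℝ) * a' * (T / 5) = a' * T by ring]
        · rw [hb']; push_cast
          rwa [show (5 : ℝ) * b' * (T / 5) = b' * T by ring]
      · obtain ⟨m, N, h1, h2⟩ := shift_one h5b (((b : ℤ) : ℝ) * (1 / (2 * ((a : ℤ) : ℝ))))
        have hane : (((a : ℤ) : ℝ)) ≠ 0 := by positivity
        refine ⟨1 / (2 * ((a : ℤ) : ℝ)) + m / 5, ?_, ?_⟩
        · have e : ((a : ℤ) : ℝ) * (1 / (2 * ((a : ℤ) : ℝ)) + m / 5) = 1 / 2 + (a' * m : ℤ) := by
            have e1 : ((a : ℤ) : ℝ) * (1 / (2 * ((a : ℤ) : ℝ))) = 1 / 2 := by field_simp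
            rw [mul_add, e1, ha']
            push_cast; ring
          rw [e]
          exact le_nint (a' * m) (by linarith) (by linarith)
        · have e : ((b : ℤ) : ℝ) * (1 / (2 * ((a : ℤ) : ℝ)) + m / 5) =
              ((b : ℤ) : ℝ) * (1 / (2 * ((a : ℤ) : ℝ))) + ((b : ℤ) : ℝ) * m / 5 := by ring
          rw [e]
          exact le_nint N (by linarith) (by linarith)
    · by_cases h5b : (5 : ℤ) ∣ (b : ℤ)
      · obtain ⟨b', hb'⟩ := h5b
        obtain ⟨m, N, h1, h2⟩ := shift_one h5a (((a : ℤ) : ℝ) * (1 / (2 * ((b : ℤ) : ℝ))))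
        have hbne : (((b : ℤ) : ℝ)) ≠ 0 := by positivity
        refine ⟨1 / (2 * ((b : ℤ) : ℝ)) + m / 5, ?_, ?_⟩
        · have e : ((a : ℤ) : ℝ) * (1 / (2 * ((b : ℤ) : ℝ)) + m / 5) =
              ((a : ℤ) : ℝ) * (1 / (2 * ((b : ℤ) : ℝ))) + ((a : ℤ) : ℝ) * m / 5 := by ring
          rw [e]
          exact le_nint N (by linarith) (by linarith)
        · have e : ((b : ℤ) : ℝ) * (1 / (2 * ((b : ℤ) : ℝ)) + m / 5) = 1 / 2 + (b' * m : ℤ) := by
            have e1 : ((b : ℤ) : ℝ) * (1 / (2 * ((b : ℤ) : ℝ))) = 1 / 2 := by field_simp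
            rw [mul_add, e1, hb']
            push_cast; ring
          rw [e]
          exact le_nint (b' * m) (by linarith) (by linarith)
      · obtain ⟨m, N, h1, h2⟩ := shift_one h5a 0
        refine ⟨m / 5, ?_, ?_⟩
        · have e : ((a : ℤ) : ℝ) * (m / 5) = 0 + ((a : ℤ) : ℝ) * m / 5 := by ring
          rw [e]
          exact le_nint N (by linarith) (by linarith)
        · -- `m` is not divisible by `5`
          have hm : ¬ (5 : ℤ) ∣ m := by
            rintro ⟨z, rfl⟩
            push_cast at h1 h2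
            have e : (0 : ℝ) + (a : ℝ) * (5 * z) / 5 = ((a * z : ℤ) : ℝ) := by push_cast; ring
            rw [e] at h1 h2
            have h3 : N < (a : ℤ) * z := by
              have : (N : ℝ) < ((a * z : ℤ) : ℝ) := by linarith
              exact_mod_cast this
            have h4 : (a : ℤ) * z < N + 1 := by
              have : ((a * z : ℤ) : ℝ) < N + 1 := by linarith
              exact_mod_cast this
            omega
          have hbm : ¬ (5 : ℤ) ∣ (b : ℤ) * m := by
            intro h
            rcases (by norm_num : Prime (5 : ℤ)).dvd_or_dvd h with h | h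
            · exact h5b h
            · exact hm h
          refine le_nint (((b : ℤ) * m) / 5) ?_ ?_
          · have h3 : 5 * (((b : ℤ) * m) / 5) + 1 ≤ (b : ℤ) * m := by omega
            have h4 : (5 : ℝ) * ((((b : ℤ) * m) / 5 : ℤ) : ℝ) + 1 ≤ ((b : ℤ) : ℝ) * m := by
              exact_mod_cast h3
            linarith
          · have h3 : (b : ℤ) * m ≤ 5 * (((b : ℤ) * m) / 5) + 4 := by omega
            have h4 : ((b : ℤ) : ℝ) * m ≤ (5 : ℝ) * ((((b : ℤ) * m) / 5 : ℤ) : ℝ) + 4 := by
              exact_mod_cast h3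
            linarith

theorem two_speeds_int {a b : ℤ} (ha : 0 < a) (hb : 0 < b) :
    ∃ T : ℝ, 2 / 5 ≤ nint ((a : ℝ) * T) ∧ 1 / 5 ≤ nint ((b : ℝ) * T) := by
  obtain ⟨T, h1, h2⟩ := two_speeds _ a.toNat b.toNat le_rfl (by omega) (by omega)
  rw [Int.toNat_of_nonneg ha.le] at h1
  rw [Int.toNat_of_nonneg hb.le] at h2
  exact ⟨T, h1, h2⟩

/-- One speed nearly an integer, one speed away from the integers. -/
theorem near_far {u v : ℤ} (hu : 0 < u) :
    ∃ (T : ℝ) (M : ℤ), |(v : ℝ) * T - M| ≤ 1 / 5 ∧ 1 / 5 ≤ nint ((u : ℝ) * T) := by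
  have hu' : (0 : ℝ) < u := by exact_mod_cast hu
  rcases eq_or_ne v 0 with rfl | hv
  · refine ⟨1 / (2 * u), 0, by norm_num, ?_⟩
    rw [show (u : ℝ) * (1 / (2 * u)) = 1 / 2 by field_simp]
    exact le_nint 0 (by norm_num) (by norm_num)
  · by_cases hd : v ∣ u
    · refine ⟨1 / (5 * u), 0, ?_, ?_⟩
      · have h1 : |v| ≤ u := by
          have := Int.le_of_dvd hu ((abs_dvd v u).2 hd)
          exact this
        have h2 : |(v : ℝ)| ≤ u := by exact_mod_cast h1
        rw [Int.cast_zero, sub_zero, abs_mul, abs_of_pos (show (0 : ℝ) < 1 / (5 * u) by positivity)]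
        rw [mul_one_div, div_le_div_iff₀ (by positivity) (by norm_num)]
        linarith
      · rw [show (u : ℝ) * (1 / (5 * u)) = 1 / 5 by field_simp]
        exact le_nint 0 (by norm_num) (by norm_num)
    · obtain ⟨T, j, h1, h2⟩ := exists_of_not_dvd hd hv
      refine ⟨T, j, ?_, by linarith⟩
      rw [h1]; norm_num

/-- The difficult case: `s` and `r` are not divisible by `5`, and the other speed is `5 * u`. -/
theorem hard_case {s r u : ℤ} (hs : ¬ (5 : ℤ) ∣ s) (hr : ¬ (5 : ℤ) ∣ r) (hu : 0 < u) :
    ∃ t : ℝ, 9 / 25 ≤ nint ((s : ℝ) * t) ∧ 1 / 5 ≤ nint ((r : ℝ) * t) ∧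
      1 / 5 ≤ nint (((5 * u : ℤ) : ℝ) * t) := by
  -- replace `r` by `-r` if necessary
  have key : ∀ r : ℤ, ((5 : ℤ) ∣ r - s ∨ (5 : ℤ) ∣ r - 2 * s) →
      ∃ t : ℝ, 9 / 25 ≤ nint ((s : ℝ) * t) ∧ 1 / 5 ≤ nint ((r : ℝ) * t) ∧
      1 / 5 ≤ nint (((5 * u : ℤ) : ℝ) * t) := by
    rintro r (⟨v, hv⟩ | ⟨v, hv⟩)
    · -- `r = s + 5 v`
      obtain ⟨T, M, hM, hT⟩ := near_far (u := u) (v := v) hu
      obtain ⟨m, N, h1, h2⟩ := shift_one hs ((s : ℝ) * (T / 5))
      have hr' : (r : ℝ) = s + 5 * v := by
        have : r = s + 5 * v := by omega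
        exact_mod_cast this
      rw [abs_le] at hM
      refine ⟨T / 5 + m / 5, ?_, ?_, ?_⟩
      · rw [show (s : ℝ) * (T / 5 + m / 5) = s * (T / 5) + s * m / 5 by ring]
        exact le_nint N (by linarith) (by linarith)
      · rw [hr', show ((s : ℝ) + 5 * v) * (T / 5 + m / 5) =
          (s * (T / 5) + s * m / 5) + v * T + v * m by ring]
        refine le_nint (N + M + v * m) ?_ ?_
        · push_cast; linarith
        · push_cast; linarith
      · refine le_nint_of_near hT (u * m) ?_
        push_cast; ring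
    · -- `r = 2 s + 5 v`
      have hr' : (r : ℝ) = 2 * s + 5 * v := by
        have : r = 2 * s + 5 * v := by omega
        exact_mod_cast this
      rcases eq_or_ne v 0 with rfl | hv0
      · obtain ⟨T, M, hM, hT⟩ := near_far (u := u) (v := s) hu
        rw [abs_le] at hM
        -- choose `m` with `M + s m ≡ 2` or `3` modulo `5`
        have hm : ∀ c : ℤ, ∃ m q : ℤ, M + s * m = c + 5 * q := by
          intro c
          have h5 : s % 5 = 1 ∨ s % 5 = 2 ∨ s % 5 = 3 ∨ s % 5 = 4 := by omega
          rcases h5 with h | h | h | h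
          · refine ⟨c - M, (s / 5) * (c - M), ?_⟩
            have : s = 5 * (s / 5) + 1 := by omega
            linear_combination (c - M) * this
          · refine ⟨3 * (c - M), (3 * (s / 5) + 1) * (c - M), ?_⟩
            have : s = 5 * (s / 5) + 2 := by omega
            linear_combination (3 * (c - M)) * this
          · refine ⟨2 * (c - M), (2 * (s / 5) + 1) * (c - M), ?_⟩
            have : s = 5 * (s / 5) + 3 := by omega
            linear_combination (2 * (c - M)) * this
          · refine ⟨4 * (c - M), (4 * (s / 5) + 3) * (c - M), ?_⟩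
            have : s = 5 * (s / 5) + 4 := by omega
            linear_combination (4 * (c - M)) * this
        rcases le_total ((s : ℝ) * T - M) 0 with hη | hη
        · obtain ⟨m, q, hq⟩ := hm 2
          have hq' : (M : ℝ) + s * m = 2 + 5 * q := by exact_mod_cast hq
          refine ⟨T / 5 + m / 5, ?_, ?_, ?_⟩
          · have e : (s : ℝ) * (T / 5 + m / 5) = (2 + (s * T - M)) / 5 + q := by
              linear_combination hq' / 5
            rw [e]
            exact le_nint q (by linarith) (by linarith)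
          · have e : (r : ℝ) * (T / 5 + m / 5) = 2 * ((2 + (s * T - M)) / 5) + 2 * q := by
              rw [hr']; push_cast
              linear_combination 2 * hq' / 5
            rw [e]
            refine le_nint (2 * q) ?_ ?_
            · push_cast; linarith
            · push_cast; linarith
          · refine le_nint_of_near hT (u * m) ?_
            push_cast; ring
        · obtain ⟨m, q, hq⟩ := hm 3
          have hq' : (M : ℝ) + s * m = 3 + 5 * q := by exact_mod_cast hq
          refine ⟨T / 5 + m / 5, ?_, ?_, ?_⟩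
          · have e : (s : ℝ) * (T / 5 + m / 5) = (3 + (s * T - M)) / 5 + q := by
              linear_combination hq' / 5
            rw [e]
            exact le_nint q (by linarith) (by linarith)
          · have e : (r : ℝ) * (T / 5 + m / 5) = 2 * ((3 + (s * T - M)) / 5) + 2 * q := by
              rw [hr']; push_cast
              linear_combination 2 * hq' / 5
            rw [e]
            refine le_nint (2 * q + 1) ?_ ?_
            · push_cast; linarith
            · push_cast; linarith
          · refine le_nint_of_near hT (u * m) ?_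
            push_cast; ring
      · -- `v ≠ 0`
        have hex : ∃ T : ℝ, 2 / 5 ≤ nint ((v : ℝ) * T) ∧ 1 / 5 ≤ nint ((u : ℝ) * T) := by
          rcases lt_or_gt_of_ne hv0 with hneg | hpos
          · obtain ⟨T, h1, h2⟩ := two_speeds_int (a := -v) (b := u) (by omega) hu
            refine ⟨T, ?_, h2⟩
            have := le_nint_neg h1
            push_cast at this
            rwa [show -(-(v : ℝ) * T) = v * T by ring] at this
          · exact two_speeds_int hpos hu
        obtain ⟨T, hT1, hT2⟩ := hex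
        obtain ⟨K, hK1, hK2⟩ := exists_of_le_nint hT1
        obtain ⟨m, N, h1, h2⟩ := shift_one hs ((s : ℝ) * (T / 5))
        refine ⟨T / 5 + m / 5, ?_, ?_, ?_⟩
        · rw [show (s : ℝ) * (T / 5 + m / 5) = s * (T / 5) + s * m / 5 by ring]
          exact le_nint N (by linarith) (by linarith)
        · rw [hr', show (2 * (s : ℝ) + 5 * v) * (T / 5 + m / 5) =
            2 * (s * (T / 5) + s * m / 5) + v * T + v * m by ring]
          refine le_nint (2 * N + 1 + K + v * m) ?_ ?_
          · push_cast; linarith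
          · push_cast; linarith
        · refine le_nint_of_near hT2 (u * m) ?_
          push_cast; ring
  have hcase : ((5 : ℤ) ∣ r - s ∨ (5 : ℤ) ∣ r - 2 * s) ∨ ((5 : ℤ) ∣ -r - s ∨ (5 : ℤ) ∣ -r - 2 * s) := by
    have h1 : s % 5 = 1 ∨ s % 5 = 2 ∨ s % 5 = 3 ∨ s % 5 = 4 := by omega
    have h2 : r % 5 = 1 ∨ r % 5 = 2 ∨ r % 5 = 3 ∨ r % 5 = 4 := by omega
    rcases h1 with h1 | h1 | h1 | h1 <;> rcases h2 with h2 | h2 | h2 | h2 <;> omega
  rcases hcase with h | h
  · exact key r h
  · obtain ⟨t, h1, h2, h3⟩ := key (-r) h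
    refine ⟨t, h1, ?_, h3⟩
    have := le_nint_neg h2
    push_cast at this
    rwa [show -(-(r : ℝ) * t) = r * t by ring] at this

theorem high_speeds : ∀ (n : ℕ) (a b c : ℤ), a + b + c ≤ n → 0 < a → 0 < b → 0 < c →
    ∃ t : ℝ, 9 / 25 ≤ nint ((a : ℝ) * t) ∧ 1 / 5 ≤ nint ((b : ℝ) * t) ∧
      1 / 5 ≤ nint ((c : ℝ) * t) := by
  intro n
  induction n with
  | zero => intro a b c h ha hb hc; omega
  | succ n ih =>
    intro a b c h ha hb hc
    by_cases h5a : (5 : ℤ) ∣ a
    · obtain ⟨a', rfl⟩ := h5a
      by_cases h5b : (5 : ℤ) ∣ b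
      · obtain ⟨b', rfl⟩ := h5b
        by_cases h5c : (5 : ℤ) ∣ c
        · obtain ⟨c', rfl⟩ := h5c
          obtain ⟨T, h1, h2, h3⟩ := ih a' b' c' (by omega) (by omega) (by omega) (by omega)
          refine ⟨T / 5, ?_, ?_, ?_⟩
          · push_cast; rwa [show (5 : ℝ) * a' * (T / 5) = a' * T by ring]
          · push_cast; rwa [show (5 : ℝ) * b' * (T / 5) = b' * T by ring]
          · push_cast; rwa [show (5 : ℝ) * c' * (T / 5) = c' * T by ring]
        · obtain ⟨T, h1, h2⟩ := two_speeds_int (a := a') (b := b') (by omega) (by omega)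
          obtain ⟨m, N, h3, h4⟩ := shift_one h5c ((c : ℝ) * (T / 5))
          refine ⟨T / 5 + m / 5, ?_, ?_, ?_⟩
          · exact le_nint_of_near (show 9 / 25 ≤ nint ((a' : ℝ) * T) by linarith) (a' * m)
              (by push_cast; ring)
          · exact le_nint_of_near h2 (b' * m) (by push_cast; ring)
          · rw [show (c : ℝ) * (T / 5 + m / 5) = c * (T / 5) + c * m / 5 by ring]
            exact le_nint N (by linarith) (by linarith)
      · by_cases h5c : (5 : ℤ) ∣ c
        · obtain ⟨c', rfl⟩ := h5c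
          obtain ⟨T, h1, h2⟩ := two_speeds_int (a := a') (b := c') (by omega) (by omega)
          obtain ⟨m, N, h3, h4⟩ := shift_one h5b ((b : ℝ) * (T / 5))
          refine ⟨T / 5 + m / 5, ?_, ?_, ?_⟩
          · exact le_nint_of_near (show 9 / 25 ≤ nint ((a' : ℝ) * T) by linarith) (a' * m)
              (by push_cast; ring)
          · rw [show (b : ℝ) * (T / 5 + m / 5) = b * (T / 5) + b * m / 5 by ring]
            exact le_nint N (by linarith) (by linarith)
          · exact le_nint_of_near h2 (c' * m) (by push_cast; ring)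
        · have hane : ((5 * a' : ℤ) : ℝ) ≠ 0 := by
            have : (5 * a' : ℤ) ≠ 0 := by omega
            exact_mod_cast this
          obtain ⟨m, h1, h2⟩ := shift_two h5b h5c ((b : ℝ) * (1 / (2 * ((5 * a' : ℤ) : ℝ))))
            ((c : ℝ) * (1 / (2 * ((5 * a' : ℤ) : ℝ))))
          refine ⟨1 / (2 * ((5 * a' : ℤ) : ℝ)) + m / 5, ?_, ?_, ?_⟩
          · have e1 : ((5 * a' : ℤ) : ℝ) * (1 / (2 * ((5 * a' : ℤ) : ℝ))) = 1 / 2 := by field_simp
            have e : ((5 * a' : ℤ) : ℝ) * (1 / (2 * ((5 * a' : ℤ) : ℝ)) + m / 5) =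
                1 / 2 + (a' * m : ℤ) := by
              rw [mul_add, e1]
              push_cast; ring
            rw [e]
            exact le_nint (a' * m) (by linarith) (by linarith)
          · rw [mul_add, show (b : ℝ) * (m / 5) = b * m / 5 by ring]
            exact h1
          · rw [mul_add, show (c : ℝ) * (m / 5) = c * m / 5 by ring]
            exact h2
    · by_cases h5b : (5 : ℤ) ∣ b
      · obtain ⟨b', rfl⟩ := h5b
        by_cases h5c : (5 : ℤ) ∣ c
        · obtain ⟨c', rfl⟩ := h5c
          obtain ⟨T, h1, h2⟩ := two_speeds_int (a := b') (b := c') (by omega) (by omega)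
          obtain ⟨m, N, h3, h4⟩ := shift_one h5a ((a : ℝ) * (T / 5))
          refine ⟨T / 5 + m / 5, ?_, ?_, ?_⟩
          · rw [show (a : ℝ) * (T / 5 + m / 5) = a * (T / 5) + a * m / 5 by ring]
            exact le_nint N (by linarith) (by linarith)
          · exact le_nint_of_near (show 1 / 5 ≤ nint ((b' : ℝ) * T) by linarith) (b' * m)
              (by push_cast; ring)
          · exact le_nint_of_near h2 (c' * m) (by push_cast; ring)
        · obtain ⟨t, h1, h2, h3⟩ := hard_case (u := b') h5a h5c (by omega)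
          exact ⟨t, h1, h3, h2⟩
      · by_cases h5c : (5 : ℤ) ∣ c
        · obtain ⟨c', rfl⟩ := h5c
          exact hard_case h5a h5b (by omega)
        · -- no speed is divisible by `5`
          obtain ⟨m, N, h1, h2⟩ := shift_one h5a 0
          have hm : ¬ (5 : ℤ) ∣ m := by
            rintro ⟨z, rfl⟩
            push_cast at h1 h2
            have e : (0 : ℝ) + (a : ℝ) * (5 * z) / 5 = ((a * z : ℤ) : ℝ) := by push_cast; ring
            rw [e] at h1 h2
            have h3 : N < (a : ℤ) * z := by
              have : (N : ℝ) < ((a * z : ℤ) : ℝ) := by linarith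
              exact_mod_cast this
            have h4 : (a : ℤ) * z < N + 1 := by
              have : ((a * z : ℤ) : ℝ) < N + 1 := by linarith
              exact_mod_cast this
            omega
          have hgen : ∀ b : ℤ, ¬ (5 : ℤ) ∣ b → 1 / 5 ≤ nint ((b : ℝ) * (m / 5)) := by
            intro b hb
            have hbm : ¬ (5 : ℤ) ∣ b * m := by
              intro h
              rcases (by norm_num : Prime (5 : ℤ)).dvd_or_dvd h with h | h
              · exact hb h
              · exact hm h
            refine le_nint ((b * m) / 5) ?_ ?_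
            · have h3 : 5 * ((b * m) / 5) + 1 ≤ b * m := by omega
              have h4 : (5 : ℝ) * (((b * m) / 5 : ℤ) : ℝ) + 1 ≤ (b : ℝ) * m := by exact_mod_cast h3
              linarith
            · have h3 : b * m ≤ 5 * ((b * m) / 5) + 4 := by omega
              have h4 : (b : ℝ) * m ≤ (5 : ℝ) * (((b * m) / 5 : ℤ) : ℝ) + 4 := by exact_mod_cast h3
              linarith
          refine ⟨m / 5, ?_, hgen b h5b, hgen c h5c⟩
          rw [show (a : ℝ) * (m / 5) = 0 + a * m / 5 by ring]
          exact le_nint N (by linarith) (by linarith)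

end Pool.Agent.V11250.LR
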