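import Pool.Agent.V11250.LR.Basic

/-!
# The union bound, and maximal points
-/

set_option autoImplicit false

namespace Pool.Agent.V11250.LR

open MeasureTheory Set

theorem norm_coe (x : ℝ) : ‖(x : UnitAddCircle)‖ = nint x := UnitAddCircle.norm_eq

theorem norm_zsmul (a : ℤ) (t : ℝ) : ‖a • (t : UnitAddCircle)‖ = nint (a * t) := by
  rw [← norm_coe, ← AddCircle.coe_zsmul, zsmul_eq_mul]

theorem norm_nsmul (a : ℕ) (t : ℝ) : ‖a • (t : UnitAddCircle)‖ = nint (a * t) := by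
  rw [← norm_coe, ← AddCircle.coe_nsmul, nsmul_eq_mul]

theorem volume_near {a : ℤ} (ha : a ≠ 0) (r : ℝ) :
    volume {g : UnitAddCircle | ‖a • g‖ ≤ r} ≤ ENNReal.ofReal (2 * r) := by
  have h1 : {g : UnitAddCircle | ‖a • g‖ ≤ r} = (fun g => a • g) ⁻¹' Metric.closedBall 0 r := by
    ext g
    simp
  rw [h1, (Measure.measurePreserving_zsmul (volume : Measure UnitAddCircle) ha).measure_preimage
    Metric.isClosed_closedBall.measurableSet.nullMeasurableSet, AddCircle.volume_closedBall]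
  exact ENNReal.ofReal_le_ofReal (min_le_right _ _)

theorem low_speeds {a b c : ℤ} (ha : a ≠ 0) (hb : b ≠ 0) (hc : c ≠ 0) :
    ∃ t : ℝ, 9 / 20 ≤ nint ((a : ℝ) * t) ∧ 1 / 50 ≤ nint ((b : ℝ) * t) ∧
      1 / 50 ≤ nint ((c : ℝ) * t) := by
  by_contra hcon
  push Not at hcon
  have hcov : (univ : Set UnitAddCircle) ⊆ {g | ‖a • g‖ ≤ 9 / 20} ∪
      ({g | ‖b • g‖ ≤ 1 / 50} ∪ {g | ‖c • g‖ ≤ 1 / 50}) := by
    intro g _
    obtain ⟨t, rfl⟩ := QuotientAddGroup.mk_surjective g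
    have e1 : ‖a • (t : UnitAddCircle)‖ = nint (a * t) := norm_zsmul a t
    have e2 : ‖b • (t : UnitAddCircle)‖ = nint (b * t) := norm_zsmul b t
    have e3 : ‖c • (t : UnitAddCircle)‖ = nint (c * t) := norm_zsmul c t
    by_cases h1 : 9 / 20 ≤ nint ((a : ℝ) * t)
    · by_cases h2 : 1 / 50 ≤ nint ((b : ℝ) * t)
      · exact Or.inr (Or.inr (e3.le.trans (hcon t h1 h2).le))
      · exact Or.inr (Or.inl (e2.le.trans (not_le.1 h2).le))
    · exact Or.inl (e1.le.trans (not_le.1 h1).le)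
  have hm := measure_mono (μ := (volume : Measure UnitAddCircle)) hcov
  rw [AddCircle.measure_univ] at hm
  have h2 : volume ({g : UnitAddCircle | ‖a • g‖ ≤ 9 / 20} ∪
      ({g | ‖b • g‖ ≤ 1 / 50} ∪ {g | ‖c • g‖ ≤ 1 / 50})) ≤
      ENNReal.ofReal (2 * (9 / 20)) + (ENNReal.ofReal (2 * (1 / 50)) +
        ENNReal.ofReal (2 * (1 / 50))) :=
    (measure_union_le _ _).trans (add_le_add (volume_near ha _)
      ((measure_union_le _ _).trans (add_le_add (volume_near hb _) (volume_near hc _))))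
  rw [← ENNReal.ofReal_add (by norm_num) (by norm_num),
    ← ENNReal.ofReal_add (by norm_num) (by norm_num)] at h2
  have h3 := hm.trans h2
  rw [ENNReal.ofReal_le_ofReal_iff (by norm_num)] at h3
  norm_num at h3

theorem isClosed_MLRC (k : ℕ) : IsClosed {d : Fin k → ℝ | MLRC d} := by
  have h0 : {d : Fin k → ℝ | MLRC d} = ⋂ s : {s : Fin k → ℕ // (∀ i, 0 < s i) ∧ Function.Injective s},
      {d | ∃ t : ℝ, ∀ i, d i ≤ nint (s.1 i * t)} := by
    ext d
    simp only [mem_ofPred_eq, mem_iInter, MLRC, Subtype.forall]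
    constructor
    · rintro h s ⟨h1, h2⟩
      exact h s h1 h2
    · intro h s h1 h2
      exact h s ⟨h1, h2⟩
  rw [h0]
  refine isClosed_iInter fun s => ?_
  have h1 : {d : Fin k → ℝ | ∃ t : ℝ, ∀ i, d i ≤ nint (s.1 i * t)} =
      Prod.fst '' {p : (Fin k → ℝ) × UnitAddCircle | ∀ i, p.1 i ≤ ‖(s.1 i) • p.2‖} := by
    ext d
    simp only [mem_ofPred_eq, mem_image, Prod.exists, exists_and_right, exists_eq_right]
    constructor
    · rintro ⟨t, ht⟩
      refine ⟨(t : UnitAddCircle), fun i => ?_⟩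
      rw [norm_nsmul]
      exact ht i
    · rintro ⟨g, hg⟩
      obtain ⟨t, rfl⟩ := QuotientAddGroup.mk_surjective g
      refine ⟨t, fun i => ?_⟩
      rw [← norm_nsmul]
      exact hg i
  rw [h1]
  refine isClosedMap_fst_of_compactSpace _ ?_
  simp only [ofPred_forall]
  refine isClosed_iInter fun i => isClosed_le ?_ ?_
  · exact (continuous_apply i).comp continuous_fst
  · exact ((continuous_nsmul (s.1 i)).comp continuous_snd).norm

theorem exists_max {k : ℕ} {d : Fin k → ℝ} (hd : d ∈ MLPS k) :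
    ∃ e ∈ UpperBoundary k, ∀ i, d i ≤ e i := by
  have hK : IsCompact (Icc d (fun _ => 1 / 2) ∩ {e : Fin k → ℝ | MLRC e}) :=
    isCompact_Icc.inter_right (isClosed_MLRC k)
  have hne : (Icc d (fun _ => 1 / 2) ∩ {e : Fin k → ℝ | MLRC e}).Nonempty :=
    ⟨d, ⟨le_rfl, fun i => (hd.1 i).2⟩, hd.2⟩
  obtain ⟨e, he, hmax⟩ := hK.exists_isMaxOn hne
    (f := fun e : Fin k → ℝ => ∑ i, e i) (by fun_prop)
  refine ⟨e, ⟨⟨fun i => ⟨(hd.1 i).1.trans_le (he.1.1 i), he.1.2 i⟩, he.2⟩, ?_⟩, he.1.1⟩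
  intro e' he' hne' hle
  have hmem : e' ∈ Icc d (fun _ => 1 / 2) ∩ {e : Fin k → ℝ | MLRC e} :=
    ⟨⟨fun i => (he.1.1 i).trans (hle i), fun i => (he'.1 i).2⟩, he'.2⟩
  have h1 : ∑ i, e' i ≤ ∑ i, e i := hmax hmem
  have h2 : ∃ i, e i ≠ e' i := by
    by_contra h
    push Not at h
    exact hne' (funext fun i => (h i).symm)
  obtain ⟨i, hi⟩ := h2
  have h3 : ∑ i, e i < ∑ i, e' i :=
    Finset.sum_lt_sum (fun j _ => hle j) ⟨i, Finset.mem_univ _, lt_of_le_of_ne (hle i) hi⟩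
  linarith

theorem MLPS_perm {k : ℕ} {d : Fin k → ℝ} (hd : d ∈ MLPS k) (σ : Equiv.Perm (Fin k)) :
    (fun i => d (σ i)) ∈ MLPS k := by
  refine ⟨fun i => hd.1 (σ i), ?_⟩
  intro s hs hinj
  obtain ⟨t, ht⟩ := hd.2 (fun i => s (σ.symm i)) (fun i => hs _)
    (hinj.comp σ.symm.injective)
  refine ⟨t, fun i => ?_⟩
  have := ht (σ i)
  simpa using this

theorem UB_perm {k : ℕ} {d : Fin k → ℝ} (hd : d ∈ UpperBoundary k) (σ : Equiv.Perm (Fin k)) :
    (fun i => d (σ i)) ∈ UpperBoundary k := by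
  refine ⟨MLPS_perm hd.1 σ, ?_⟩
  intro e he hne hle
  refine hd.2 (fun i => e (σ.symm i)) (MLPS_perm he σ.symm) ?_ ?_
  · intro h
    apply hne
    funext i
    have := congrFun h (σ i)
    simpa using this
  · intro i
    have := hle (σ.symm i)
    simpa using this

end Pool.Agent.V11250.LR
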