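import Pool.Agent.V11250.LR.Basic

/-!
# The point `(1/4, 1/4, 1/4)`
-/

set_option autoImplicit false

namespace Pool.Agent.V11250.LR

/-- The shift lemma modulo `2`. -/
theorem shift_half {s : ℤ} (hs : ¬ (2 : ℤ) ∣ s) (x : ℝ) :
    ∃ m : ℤ, 1 / 4 ≤ nint (x + s * m / 2) := by
  set N : ℤ := ⌊x⌋ with hN
  have h1 : (N : ℝ) ≤ x := Int.floor_le x
  have h2 : x < N + 1 := Int.lt_floor_add_one x
  obtain ⟨q, hq⟩ : ∃ q : ℤ, s = 2 * q + 1 := ⟨s / 2, by omega⟩
  have hq' : (s : ℝ) = 2 * q + 1 := by exact_mod_cast hq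
  rcases le_or_gt x (N + 1 / 4) with h | h
  · refine ⟨1, le_nint (N + q) ?_ ?_⟩
    · rw [hq']; push_cast; linarith
    · rw [hq']; push_cast; linarith
  · rcases le_or_gt x (N + 3 / 4) with h3 | h3
    · refine ⟨0, le_nint N ?_ ?_⟩
      · push_cast; linarith
      · push_cast; linarith
    · refine ⟨1, le_nint (N + q + 1) ?_ ?_⟩
      · rw [hq']; push_cast; linarith
      · rw [hq']; push_cast; linarith

theorem two_quarter : ∀ (n : ℕ) (a b : ℤ), a + b ≤ n → 0 < a → 0 < b →
    ∃ T : ℝ, 1 / 4 ≤ nint ((a : ℝ) * T) ∧ 1 / 4 ≤ nint ((b : ℝ) * T) := by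
  intro n
  induction n with
  | zero => intro a b h ha hb; omega
  | succ n ih =>
    intro a b h ha hb
    by_cases h2a : (2 : ℤ) ∣ a
    · obtain ⟨a', rfl⟩ := h2a
      by_cases h2b : (2 : ℤ) ∣ b
      · obtain ⟨b', rfl⟩ := h2b
        obtain ⟨T, h1, h2⟩ := ih a' b' (by omega) (by omega) (by omega)
        refine ⟨T / 2, ?_, ?_⟩
        · push_cast; rwa [show (2 : ℝ) * a' * (T / 2) = a' * T by ring]
        · push_cast; rwa [show (2 : ℝ) * b' * (T / 2) = b' * T by ring]
      · have hane : (a' : ℝ) ≠ 0 := by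
          have : a' ≠ 0 := by omega
          exact_mod_cast this
        obtain ⟨m, h1⟩ := shift_half h2b ((b : ℝ) * (1 / (4 * a')))
        refine ⟨1 / (4 * a') + m / 2, ?_, ?_⟩
        · have e : ((2 * a' : ℤ) : ℝ) * (1 / (4 * a') + m / 2) = 1 / 2 + (a' * m : ℤ) := by
            push_cast; field_simp; ring
          rw [e]
          exact le_nint (a' * m) (by linarith) (by linarith)
        · rw [mul_add, show (b : ℝ) * (m / 2) = b * m / 2 by ring]
          exact h1
    · by_cases h2b : (2 : ℤ) ∣ b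
      · obtain ⟨b', rfl⟩ := h2b
        have hbne : (b' : ℝ) ≠ 0 := by
          have : b' ≠ 0 := by omega
          exact_mod_cast this
        obtain ⟨m, h1⟩ := shift_half h2a ((a : ℝ) * (1 / (4 * b')))
        refine ⟨1 / (4 * b') + m / 2, ?_, ?_⟩
        · rw [mul_add, show (a : ℝ) * (m / 2) = a * m / 2 by ring]
          exact h1
        · have e : ((2 * b' : ℤ) : ℝ) * (1 / (4 * b') + m / 2) = 1 / 2 + (b' * m : ℤ) := by
            push_cast; field_simp; ring
          rw [e]
          exact le_nint (b' * m) (by linarith) (by linarith)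
      · obtain ⟨p, hp⟩ : ∃ q : ℤ, a = 2 * q + 1 := ⟨a / 2, by omega⟩
        obtain ⟨q, hq⟩ : ∃ q : ℤ, b = 2 * q + 1 := ⟨b / 2, by omega⟩
        refine ⟨1 / 2, ?_, ?_⟩
        · refine le_nint p ?_ ?_
          · rw [hp]; push_cast; linarith
          · rw [hp]; push_cast; linarith
        · refine le_nint q ?_ ?_
          · rw [hq]; push_cast; linarith
          · rw [hq]; push_cast; linarith

/-- Two different odd speeds and one even speed. -/
theorem odd_odd_even {s r c : ℤ} (hs : ¬ (2 : ℤ) ∣ s) (hr : ¬ (2 : ℤ) ∣ r) (hs0 : 0 < s)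
    (hr0 : 0 < r) (hc : 0 < c) (hne : s ≠ r) :
    ∃ t : ℝ, 1 / 4 ≤ nint ((s : ℝ) * t) ∧ 1 / 4 ≤ nint ((r : ℝ) * t) ∧
      1 / 4 ≤ nint (((2 * c : ℤ) : ℝ) * t) := by
  obtain ⟨a, ha⟩ : ∃ a : ℤ, s - r = 2 * a := ⟨(s - r) / 2, by omega⟩
  obtain ⟨b, hb⟩ : ∃ b : ℤ, s + r = 2 * b := ⟨(s + r) / 2, by omega⟩
  have ha0 : a ≠ 0 := by omega
  have hb0 : 0 < b := by omega
  have hs1 : s = a + b := by omega
  have hr1 : r = b - a := by omega
  have hs1' : (s : ℝ) = a + b := by exact_mod_cast hs1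
  have hr1' : (r : ℝ) = b - a := by exact_mod_cast hr1
  -- the time for the differences
  have key : ∃ (T : ℝ) (A B : ℤ), |(a : ℝ) * T - A| + |(b : ℝ) * T - B| ≤ 1 / 2 ∧
      1 / 4 ≤ nint ((c : ℝ) * T) := by
    by_cases hbc : b ∣ c
    · by_cases hac : a ∣ c
      · have hc' : (0 : ℝ) < c := by exact_mod_cast hc
        have h1 : |a| ≤ c := Int.le_of_dvd hc ((abs_dvd a c).2 hac)
        have h2 : b ≤ c := Int.le_of_dvd hc hbc
        have h1' : |(a : ℝ)| ≤ c := by exact_mod_cast h1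
        have h2' : (b : ℝ) ≤ c := by exact_mod_cast h2
        have hb' : (0 : ℝ) < b := by exact_mod_cast hb0
        refine ⟨1 / (4 * c), 0, 0, ?_, ?_⟩
        · have e1 : |(a : ℝ) * (1 / (4 * c)) - ((0 : ℤ) : ℝ)| ≤ 1 / 4 := by
            rw [Int.cast_zero, sub_zero, abs_mul,
              abs_of_pos (show (0 : ℝ) < 1 / (4 * c) by positivity), mul_one_div,
              div_le_div_iff₀ (by positivity) (by norm_num)]
            linarith
          have e2 : |(b : ℝ) * (1 / (4 * c)) - ((0 : ℤ) : ℝ)| ≤ 1 / 4 := by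
            rw [Int.cast_zero, sub_zero, abs_mul, abs_of_pos hb',
              abs_of_pos (show (0 : ℝ) < 1 / (4 * c) by positivity), mul_one_div,
              div_le_div_iff₀ (by positivity) (by norm_num)]
            linarith
          linarith
        · rw [show (c : ℝ) * (1 / (4 * c)) = 1 / 4 by field_simp]
          exact le_nint 0 (by norm_num) (by norm_num)
      · obtain ⟨T, j, h1, h2⟩ := exists_of_not_dvd hac ha0
        refine ⟨T, j, round ((b : ℝ) * T), ?_, h2⟩
        rw [h1, sub_self, abs_zero, zero_add]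
        exact abs_sub_round _
    · obtain ⟨T, j, h1, h2⟩ := exists_of_not_dvd hbc hb0.ne'
      refine ⟨T, round ((a : ℝ) * T), j, ?_, h2⟩
      rw [h1, sub_self, abs_zero, add_zero]
      exact abs_sub_round _
  obtain ⟨T, A, B, hAB, hT⟩ := key
  have b1 : |((a : ℝ) * T - A) + (b * T - B)| ≤ 1 / 2 := (abs_add_le _ _).trans hAB
  have b2 : |((b : ℝ) * T - B) - (a * T - A)| ≤ 1 / 2 := by
    have := abs_sub ((b : ℝ) * T - B) (a * T - A)
    linarith
  rw [abs_le] at b1 b2
  rcases Int.even_or_odd (A + B) with ⟨k, hk⟩ | ⟨k, hk⟩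
  · -- shift by one half
    have hk' : (A : ℝ) + B = k + k := by exact_mod_cast hk
    obtain ⟨p, hp⟩ : ∃ q : ℤ, s = 2 * q + 1 := ⟨s / 2, by omega⟩
    obtain ⟨q, hq⟩ : ∃ q : ℤ, r = 2 * q + 1 := ⟨r / 2, by omega⟩
    have hp' : (a : ℝ) + b = 2 * p + 1 := by rw [← hs1']; exact_mod_cast hp
    have hq' : (b : ℝ) - a = 2 * q + 1 := by rw [← hr1']; exact_mod_cast hq
    refine ⟨T / 2 + 1 / 2, ?_, ?_, ?_⟩
    · rw [hs1']
      refine le_nint (k + p) ?_ ?_
      · push_cast; linarith
      · push_cast; linarith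
    · rw [hr1']
      refine le_nint (B - k + q) ?_ ?_
      · push_cast; linarith
      · push_cast; linarith
    · refine le_nint_of_near hT c ?_
      push_cast; ring
  · have hk' : (A : ℝ) + B = 2 * k + 1 := by exact_mod_cast hk
    refine ⟨T / 2, ?_, ?_, ?_⟩
    · rw [hs1']
      refine le_nint k ?_ ?_
      · linarith
      · linarith
    · rw [hr1']
      refine le_nint (B - k - 1) ?_ ?_
      · push_cast; linarith
      · push_cast; linarith
    · refine le_nint_of_near hT 0 ?_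
      push_cast; ring

theorem quarter_speeds : ∀ (n : ℕ) (a b c : ℤ), a + b + c ≤ n → 0 < a → 0 < b → 0 < c →
    a ≠ b → a ≠ c → b ≠ c →
    ∃ t : ℝ, 1 / 4 ≤ nint ((a : ℝ) * t) ∧ 1 / 4 ≤ nint ((b : ℝ) * t) ∧
      1 / 4 ≤ nint ((c : ℝ) * t) := by
  intro n
  induction n with
  | zero => intro a b c h ha hb hc; omega
  | succ n ih =>
    intro a b c h ha hb hc hab hac hbc
    by_cases h2a : (2 : ℤ) ∣ a
    · by_cases h2b : (2 : ℤ) ∣ b
      · by_cases h2c : (2 : ℤ) ∣ c
        · obtain ⟨a', rfl⟩ := h2a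
          obtain ⟨b', rfl⟩ := h2b
          obtain ⟨c', rfl⟩ := h2c
          obtain ⟨T, h1, h2, h3⟩ := ih a' b' c' (by omega) (by omega) (by omega) (by omega)
            (by omega) (by omega) (by omega)
          refine ⟨T / 2, ?_, ?_, ?_⟩
          · push_cast; rwa [show (2 : ℝ) * a' * (T / 2) = a' * T by ring]
          · push_cast; rwa [show (2 : ℝ) * b' * (T / 2) = b' * T by ring]
          · push_cast; rwa [show (2 : ℝ) * c' * (T / 2) = c' * T by ring]
        · obtain ⟨a', rfl⟩ := h2a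
          obtain ⟨b', rfl⟩ := h2b
          obtain ⟨T, h1, h2⟩ := two_quarter _ a' b' (Int.self_le_toNat _) (by omega) (by omega)
          obtain ⟨m, h3⟩ := shift_half h2c ((c : ℝ) * (T / 2))
          refine ⟨T / 2 + m / 2, ?_, ?_, ?_⟩
          · exact le_nint_of_near h1 (a' * m) (by push_cast; ring)
          · exact le_nint_of_near h2 (b' * m) (by push_cast; ring)
          · rw [mul_add, show (c : ℝ) * (m / 2) = c * m / 2 by ring]
            exact h3
      · by_cases h2c : (2 : ℤ) ∣ c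
        · obtain ⟨a', rfl⟩ := h2a
          obtain ⟨c', rfl⟩ := h2c
          obtain ⟨T, h1, h2⟩ := two_quarter _ a' c' (Int.self_le_toNat _) (by omega) (by omega)
          obtain ⟨m, h3⟩ := shift_half h2b ((b : ℝ) * (T / 2))
          refine ⟨T / 2 + m / 2, ?_, ?_, ?_⟩
          · exact le_nint_of_near h1 (a' * m) (by push_cast; ring)
          · rw [mul_add, show (b : ℝ) * (m / 2) = b * m / 2 by ring]
            exact h3
          · exact le_nint_of_near h2 (c' * m) (by push_cast; ring)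
        · obtain ⟨a', rfl⟩ := h2a
          obtain ⟨t, h1, h2, h3⟩ := odd_odd_even h2b h2c hb hc (c := a') (by omega) hbc
          exact ⟨t, h3, h1, h2⟩
    · by_cases h2b : (2 : ℤ) ∣ b
      · by_cases h2c : (2 : ℤ) ∣ c
        · obtain ⟨b', rfl⟩ := h2b
          obtain ⟨c', rfl⟩ := h2c
          obtain ⟨T, h1, h2⟩ := two_quarter _ b' c' (Int.self_le_toNat _) (by omega) (by omega)
          obtain ⟨m, h3⟩ := shift_half h2a ((a : ℝ) * (T / 2))
          refine ⟨T / 2 + m / 2, ?_, ?_, ?_⟩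
          · rw [mul_add, show (a : ℝ) * (m / 2) = a * m / 2 by ring]
            exact h3
          · exact le_nint_of_near h1 (b' * m) (by push_cast; ring)
          · exact le_nint_of_near h2 (c' * m) (by push_cast; ring)
        · obtain ⟨b', rfl⟩ := h2b
          obtain ⟨t, h1, h2, h3⟩ := odd_odd_even h2a h2c ha hc (c := b') (by omega) hac
          exact ⟨t, h1, h3, h2⟩
      · by_cases h2c : (2 : ℤ) ∣ c
        · obtain ⟨c', rfl⟩ := h2c
          exact odd_odd_even h2a h2b ha hb (by omega) hab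
        · obtain ⟨p, hp⟩ : ∃ q : ℤ, a = 2 * q + 1 := ⟨a / 2, by omega⟩
          obtain ⟨q, hq⟩ : ∃ q : ℤ, b = 2 * q + 1 := ⟨b / 2, by omega⟩
          obtain ⟨r, hr⟩ : ∃ q : ℤ, c = 2 * q + 1 := ⟨c / 2, by omega⟩
          refine ⟨1 / 2, ?_, ?_, ?_⟩
          · refine le_nint p ?_ ?_
            · rw [hp]; push_cast; linarith
            · rw [hp]; push_cast; linarith
          · refine le_nint q ?_ ?_
            · rw [hq]; push_cast; linarith
            · rw [hq]; push_cast; linarith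
          · refine le_nint r ?_ ?_
            · rw [hr]; push_cast; linarith
            · rw [hr]; push_cast; linarith

end Pool.Agent.V11250.LR
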