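import Pool.Agent.V11250.LR.High
import Pool.Agent.V11250.LR.Quarter
import Pool.Agent.V11250.LR.Low

/-!
# The convex hull
-/

set_option autoImplicit false

namespace Pool.Agent.V11250.LR

open Set

theorem mem_of_speeds {d : Fin 3 → ℝ} (h0 : ∀ i, 0 < d i ∧ d i ≤ 1 / 2)
    (h : ∀ a b c : ℤ, 0 < a → 0 < b → 0 < c → a ≠ b → a ≠ c → b ≠ c →
      ∃ t : ℝ, d 0 ≤ nint ((a : ℝ) * t) ∧ d 1 ≤ nint ((b : ℝ) * t) ∧ d 2 ≤ nint ((c : ℝ) * t)) :
    d ∈ MLPS 3 := by
  refine ⟨h0, ?_⟩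
  intro s hs hinj
  obtain ⟨t, h1, h2, h3⟩ := h (s 0) (s 1) (s 2) (by exact_mod_cast hs 0) (by exact_mod_cast hs 1)
    (by exact_mod_cast hs 2)
    (by intro h; exact absurd (hinj (by exact_mod_cast h)) (by decide))
    (by intro h; exact absurd (hinj (by exact_mod_cast h)) (by decide))
    (by intro h; exact absurd (hinj (by exact_mod_cast h)) (by decide))
  push_cast at h1 h2 h3
  refine ⟨t, fun i => ?_⟩
  fin_cases i
  · exact h1
  · exact h2
  · exact h3

/-- The high point. -/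
theorem high_mem : (![9 / 25, 1 / 5, 1 / 5] : Fin 3 → ℝ) ∈ MLPS 3 := by
  refine mem_of_speeds ?_ ?_
  · intro i; fin_cases i <;> norm_num
  · intro a b c ha hb hc _ _ _
    obtain ⟨t, h1, h2, h3⟩ := high_speeds (a + b + c).toNat a b c (Int.self_le_toNat _) ha hb hc
    exact ⟨t, by simpa using h1, by simpa using h2, by simpa using h3⟩

/-- The diagonal point. -/
theorem quarter_mem : (fun _ => 1 / 4 : Fin 3 → ℝ) ∈ MLPS 3 := by
  refine mem_of_speeds ?_ ?_
  · intro i; norm_num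
  · intro a b c ha hb hc h1 h2 h3
    exact quarter_speeds (a + b + c).toNat a b c (Int.self_le_toNat _) ha hb hc h1 h2 h3

/-- The low point. -/
theorem low_mem : (![9 / 20, 1 / 50, 1 / 50] : Fin 3 → ℝ) ∈ MLPS 3 := by
  refine mem_of_speeds ?_ ?_
  · intro i; fin_cases i <;> norm_num
  · intro a b c ha hb hc _ _ _
    obtain ⟨t, h1, h2, h3⟩ := low_speeds ha.ne' hb.ne' hc.ne'
    exact ⟨t, by simpa using h1, by simpa using h2, by simpa using h3⟩

/-- The speeds `1` and `2`. -/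
theorem bound_pair {x y t : ℝ} (h1 : x ≤ nint t) (h2 : y ≤ nint (2 * t)) : 2 * x + y ≤ 1 := by
  obtain ⟨N, h3, h4⟩ := exists_of_le_nint h1
  have h5 : nint (2 * t) ≤ 1 - 2 * x := by
    refine nint_le (2 * N + 1) ?_
    push_cast
    rw [abs_le]
    constructor <;> linarith
  linarith

theorem bound_mem {d : Fin 3 → ℝ} (hd : d ∈ MLPS 3) :
    2 * d 0 + d 1 ≤ 1 ∧ 2 * d 0 + d 2 ≤ 1 := by
  constructor
  · obtain ⟨t, ht⟩ := hd.2 ![1, 2, 3] (by decide) (by decide)
    have h0 := ht 0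
    have h1 := ht 1
    simp only [Matrix.cons_val_zero, Matrix.cons_val_one, Nat.cast_one, one_mul, Nat.cast_ofNat]
      at h0 h1
    exact bound_pair h0 h1
  · obtain ⟨t, ht⟩ := hd.2 ![1, 3, 2] (by decide) (by decide)
    have h0 := ht 0
    have h1 := ht 2
    simp only [Matrix.cons_val_zero, Matrix.cons_val, Nat.cast_one, one_mul, Nat.cast_ofNat]
      at h0 h1
    exact bound_pair h0 h1

/-- The mean of the cyclic shifts of a point. -/
theorem mean_mem {S : Set (Fin 3 → ℝ)} {d : Fin 3 → ℝ}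
    (h : ∀ σ : Equiv.Perm (Fin 3), (fun i => d (σ i)) ∈ S) :
    (fun _ => (d 0 + d 1 + d 2) / 3) ∈ convexHull ℝ S := by
  have h1 := (convex_convexHull ℝ S).sum_mem (t := Finset.univ) (w := fun _ : Fin 3 => (1 / 3 : ℝ))
    (z := fun j : Fin 3 => fun i => d (Equiv.addRight j i)) (by intro i _; norm_num) (by simp)
    (by intro j _; exact subset_convexHull ℝ S (h (Equiv.addRight j)))
  have h2 : (∑ j : Fin 3, (1 / 3 : ℝ) • (fun i : Fin 3 => d (Equiv.addRight j i))) =
      fun _ => (d 0 + d 1 + d 2) / 3 := by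
    funext i
    simp only [Fin.sum_univ_three, Pi.add_apply, Pi.smul_apply, Equiv.coe_addRight, smul_eq_mul]
    fin_cases i <;> simp <;> ring
  rw [h2] at h1
  exact h1

end Pool.Agent.V11250.LR
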